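import Pool.Agent.H70.PW.Targets

/-!
# APP: the terms of the expansion are polynomials of low degree up to the error
-/

set_option autoImplicit false
set_option linter.unusedSectionVars false

namespace Pool.Agent.H89.PW.APP

open Finset Pool.Agent.H6.NB Pool.Agent.H70.OQ Pool.Agent.H70.PW

theorem bi_nonneg' (b : Bool) : 0 ≤ bi b := by unfold bi; split_ifs <;> norm_num

theorem bi_le_one' (b : Bool) : bi b ≤ 1 := by unfold bi; split_ifs <;> norm_num

theorem bi_xor (a c : Bool) : bi (xor a c) = if a then 1 + (-1) * bi c else bi c := by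
  cases a <;> cases c <;> simp [bi]

section

variable {X B Ω ρ : Type} [Fintype X] [Fintype Ω] [DecidableEq Ω] [Fintype ρ]
  {nn qb : Ω → ℕ}

theorem gap_bound [Nonempty ρ] (f : ρ → (PosG B Ω nn qb → Bool) → Bool)
    (y : PosG B Ω nn qb → Bool) : |gap f y| ≤ 3 * Fintype.card ρ := by
  have hc : (1 : ℝ) ≤ Fintype.card ρ := by exact_mod_cast Fintype.card_pos
  have h0 : 0 ≤ ∑ r, bi (f r y) := Finset.sum_nonneg fun r _ => bi_nonneg' _
  have h1 : ∑ r, bi (f r y) ≤ Fintype.card ρ := by
    calc ∑ r, bi (f r y) ≤ ∑ _r : ρ, (1 : ℝ) := Finset.sum_le_sum fun r _ => bi_le_one' _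
      _ = Fintype.card ρ := by simp
  unfold gap
  rw [abs_le]
  constructor <;> linarith

theorem prod_bound (I : Finset Ω) (c : Ω → Bool) : |∏ s ∈ I, bi (c s)| ≤ 1 := by
  have h0 : 0 ≤ ∏ s ∈ I, bi (c s) := Finset.prod_nonneg fun s _ => bi_nonneg' _
  rw [abs_of_nonneg h0]
  exact Finset.prod_le_one (fun s _ => bi_nonneg' _) fun s _ => bi_le_one' _

theorem key (h1 : T_LDC) (h2 : T_LDT) [Nonempty ρ] (D : Ω → (PosG B Ω nn qb → Bool) → Bool)
    (f : ρ → (PosG B Ω nn qb → Bool) → Bool) (w L : ℕ) (lx : X → Bool)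
    (Tb : (X → Bool) → B → Bool) (I : Finset Ω) (hI : I.card < L) (e : Ω → Bool)
    (P : Blk nn qb) :
    ∃ g : (X → Bool) → ℝ, Lo (L * w) g ∧ ∀ b : X → Bool, (∀ x, lx x = false → b x = true) →
      |(∏ s ∈ I, bi (thG (accG D P) (Tb b) e s)) * gap f (vlG (Tb b) e P) - g b| ≤
        ic (Bdf w lx Tb D f I e P) * (3 * Fintype.card ρ) := by
  obtain ⟨lc, lmono, lmul, ladd, lsum, lprod2, lprod⟩ := h1 X
  by_cases hB : Bdf w lx Tb D f I e P
  · refine ⟨fun _ => 0, lc _ 0, fun b _ => ?_⟩
    have hic : ic (Bdf w lx Tb D f I e P) = 1 := by unfold ic; rw [if_pos hB]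
    rw [hic, sub_zero, one_mul, abs_mul]
    calc |∏ s ∈ I, bi (thG (accG D P) (Tb b) e s)| * |gap f (vlG (Tb b) e P)|
        ≤ 1 * (3 * Fintype.card ρ) := by
          apply mul_le_mul (prod_bound _ _) (gap_bound _ _) (abs_nonneg _) zero_le_one
      _ = 3 * Fintype.card ρ := one_mul _
  · have hs : ∀ s : Ω, ∃ T : Pool.Agent.H68.AC.DT X, s ∈ I → T.depth ≤ w ∧
        ∀ b : X → Bool, (∀ x, lx x = false → b x = true) → T.eval b = accG D P s (Tb b) e := by
      intro s
      by_cases hsI : s ∈ I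
      · by_contra hcon
        apply hB
        left
        refine ⟨s, hsI, ?_⟩
        rintro ⟨T, hT1, hT2⟩
        exact hcon ⟨T, fun _ => ⟨hT1, hT2⟩⟩
      · by_cases hne : Nonempty (Pool.Agent.H68.AC.DT X)
        · exact ⟨hne.some, fun h => absurd h hsI⟩
        · exfalso
          apply hB
          right
          obtain ⟨r⟩ := ‹Nonempty ρ›
          refine ⟨r, ?_⟩
          rintro ⟨T, -, -⟩
          exact hne ⟨T⟩
    have hr : ∀ r : ρ, ∃ T : Pool.Agent.H68.AC.DT X, T.depth ≤ w ∧
        ∀ b : X → Bool, (∀ x, lx x = false → b x = true) → T.eval b = f r (vlG (Tb b) e P) := by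
      intro r
      by_contra hcon
      apply hB
      right
      exact ⟨r, hcon⟩
    choose Ts hTs using hs
    choose Tr hTr1 hTr2 using hr
    refine ⟨fun b => (∏ s ∈ I, (if e s then 1 + (-1) * bi ((Ts s).eval b) else bi ((Ts s).eval b))) *
      (4 * (∑ r, bi ((Tr r).eval b)) + (- 2 * Fintype.card ρ - 1)), ?_, ?_⟩
    · have hA : Lo (I.card * w) fun b : X → Bool => ∏ s ∈ I,
          (if e s then 1 + (-1) * bi ((Ts s).eval b) else bi ((Ts s).eval b)) := by
        apply lprod w Ω I fun s b =>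
          (if e s then 1 + (-1) * bi ((Ts s).eval b) else bi ((Ts s).eval b))
        intro s hs
        have hT : Lo w fun b : X → Bool => bi ((Ts s).eval b) := h2 X (Ts s) w (hTs s hs).1
        by_cases he : e s = true
        · simp only [he, if_true]
          exact ladd w _ _ (lc w 1) (lmul w (-1) _ hT)
        · simp only [he, if_false, Bool.false_eq_true]
          exact hT
      have hG : Lo w fun b : X → Bool =>
          4 * (∑ r, bi ((Tr r).eval b)) + (- 2 * Fintype.card ρ - 1) := by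
        apply ladd w (fun b => 4 * (∑ r, bi ((Tr r).eval b)))
          (fun _ => (- 2 * (Fintype.card ρ : ℝ) - 1))
        · apply lmul w 4
          apply lsum w ρ univ fun r b => bi ((Tr r).eval b)
          intro r _
          exact h2 X (Tr r) w (hTr1 r)
        · exact lc w _
      have hAG := lprod2 (I.card * w) w _ _ hA hG
      apply lmono _ (L * w) _ _ hAG
      calc I.card * w + w = (I.card + 1) * w := by ring
        _ ≤ L * w := Nat.mul_le_mul_right w hI
    · intro b hb
      have e1 : ∏ s ∈ I, (if e s then 1 + (-1) * bi ((Ts s).eval b) else bi ((Ts s).eval b)) =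
          ∏ s ∈ I, bi (thG (accG D P) (Tb b) e s) := by
        apply Finset.prod_congr rfl
        intro s hs
        rw [(hTs s hs).2 b hb]
        unfold thG
        rw [bi_xor]
      have e2 : 4 * (∑ r, bi ((Tr r).eval b)) + (- 2 * (Fintype.card ρ : ℝ) - 1) =
          gap f (vlG (Tb b) e P) := by
        unfold gap
        have : ∑ r, bi ((Tr r).eval b) = ∑ r, bi (f r (vlG (Tb b) e P)) :=
          Finset.sum_congr rfl fun r _ => by rw [hTr2 r b hb]
        rw [this]
        ring
      simp only []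
      rw [e1, e2, sub_self, abs_zero]
      have hic : ic (Bdf w lx Tb D f I e P) = 0 := by unfold ic; rw [if_neg hB]
      rw [hic, zero_mul]

end

theorem app_ (h1 : T_LDC) (h2 : T_LDT) : T_APP := by
  intro X B Ω ρ _ _ _ _ _ nn qb D f w L lx Tb
  have hex : ∀ (I : Finset Ω) (e : Ω → Bool) (P : Blk nn qb), ∃ g : (X → Bool) → ℝ,
      I.card < L → (Lo (L * w) g ∧ ∀ b : X → Bool, (∀ x, lx x = false → b x = true) →
      |(∏ s ∈ I, bi (thG (accG D P) (Tb b) e s)) * gap f (vlG (Tb b) e P) - g b| ≤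
        ic (Bdf w lx Tb D f I e P) * (3 * Fintype.card ρ)) := by
    intro I e P
    by_cases hI : I.card < L
    · obtain ⟨g, hg⟩ := key h1 h2 D f w L lx Tb I hI e P
      exact ⟨g, fun _ => hg⟩
    · exact ⟨fun _ => 0, fun h => absurd h hI⟩
  choose g hg using hex
  obtain ⟨lc, lmono, lmul, ladd, lsum, lprod2, lprod⟩ := h1 X
  have hpos : (0 : ℝ) < 2 ^ Fintype.card Ω := by positivity
  refine ⟨fun b => ∑ I ∈ univ.filter (fun I : Finset Ω => I.card < L),
    (1 / 2 ^ Fintype.card Ω) * (∑ e : Ω → Bool, ∑ P : Blk nn qb, wgt I P * g I e P b), ?_, ?_⟩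
  · apply lsum (L * w) (Finset Ω) (univ.filter (fun I : Finset Ω => I.card < L)) fun I b =>
      (1 / 2 ^ Fintype.card Ω) * (∑ e : Ω → Bool, ∑ P : Blk nn qb, wgt I P * g I e P b)
    intro I hI
    have hI' : I.card < L := (Finset.mem_filter.mp hI).2
    apply lmul
    apply lsum (L * w) (Ω → Bool) univ fun e b => ∑ P : Blk nn qb, wgt I P * g I e P b
    intro e _
    apply lsum (L * w) (Blk nn qb) univ fun P b => wgt I P * g I e P b
    intro P _
    apply lmul
    exact (hg I e P hI').1
  · intro b hb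
    unfold Er
    rw [← Finset.sum_sub_distrib]
    refine (Finset.abs_sum_le_sum_abs _ _).trans ?_
    apply Finset.sum_le_sum
    intro I hI
    have hI' : I.card < L := (Finset.mem_filter.mp hI).2
    have e3 : trm D f (Tb b) I - (1 / 2 ^ Fintype.card Ω) *
        (∑ e : Ω → Bool, ∑ P : Blk nn qb, wgt I P * g I e P b) =
        (∑ e : Ω → Bool, ∑ P : Blk nn qb, wgt I P *
          ((∏ s ∈ I, bi (thG (accG D P) (Tb b) e s)) * gap f (vlG (Tb b) e P) - g I e P b)) /
          2 ^ Fintype.card Ω := by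
      unfold trm
      rw [one_div, inv_mul_eq_div, ← sub_div, ← Finset.sum_sub_distrib]
      congr 1
      apply Finset.sum_congr rfl
      intro e _
      rw [← Finset.sum_sub_distrib]
      apply Finset.sum_congr rfl
      intro P _
      ring
    rw [e3, abs_div, abs_of_pos hpos, div_mul_eq_mul_div]
    apply div_le_div_of_nonneg_right _ hpos.le
    refine (Finset.abs_sum_le_sum_abs _ _).trans ?_
    rw [Finset.sum_mul]
    apply Finset.sum_le_sum
    intro e _
    refine (Finset.abs_sum_le_sum_abs _ _).trans ?_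
    rw [Finset.sum_mul]
    apply Finset.sum_le_sum
    intro P _
    rw [abs_mul, mul_assoc]
    exact mul_le_mul_of_nonneg_left ((hg I e P hI').2 b hb) (abs_nonneg _)

end Pool.Agent.H89.PW.APP
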